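import Pool.Agent.V1151.DG.Defs
import Pool.Agent.TH133.Base

/-!
# Growth of the defects of the Hodge conjecture for the powers of a variety
-/

open CategoryTheory AlgebraicGeometry Filter

universe u v w

namespace Pool.Agent.V1151.DG

open Pool.Agent.H914 Pool.Agent.H914.VarClass Pool.Agent.H914.VarClass.Obj Pool.Agent.W492.BB
  Pool.Agent.W550.Corr Pool.Agent.TH133

set_option linter.unusedSectionVars false

variable {k : Type u} [Field k] {𝒱 : VarClass k} {C : TheoryData.{u, v, 0} 𝒱 ℚ}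
  [hC : IsChowProj C] {K : Type w} [Field K] {H : WeilTheoryData.{u, v, w} C K}
  [hH : IsWeilProj H] {X Y Z : 𝒱.Obj}

lemma alg_cl (z : C.A X) : H.cl z ∈ Alg H X := Submodule.subset_span ⟨z, rfl⟩

lemma alg_up (f : X ⟶ Y) {t : H.A Y} (ht : t ∈ Alg H Y) : H.pull f t ∈ Alg H X := by
  induction ht using Submodule.span_induction with
  | mem t h =>
    obtain ⟨z, rfl⟩ := h
    have h1 : H.pull f (H.cl z) = H.cl (C.pull f z) := (hH.isClassMap.cl_pull f z).symm
    simp only
    rw [h1]
    exact alg_cl _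
  | zero => rw [map_zero]; exact Submodule.zero_mem _
  | add a b _ _ h1 h2 => rw [map_add]; exact Submodule.add_mem _ h1 h2
  | smul c a _ h1 => rw [map_smul]; exact Submodule.smul_mem _ c h1

lemma alg_down (f : X ⟶ Y) {t : H.A X} (ht : t ∈ Alg H X) : H.push f t ∈ Alg H Y := by
  induction ht using Submodule.span_induction with
  | mem t h =>
    obtain ⟨z, rfl⟩ := h
    have h1 : H.push f (H.cl z) = H.cl (C.push f z) := (hH.isClassMap.cl_push f z).symm
    simp only
    rw [h1]
    exact alg_cl _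
  | zero => rw [map_zero]; exact Submodule.zero_mem _
  | add a b _ _ h1 h2 => rw [map_add]; exact Submodule.add_mem _ h1 h2
  | smul c a _ h1 => rw [map_smul]; exact Submodule.smul_mem _ c h1

lemma alg_mul {t : H.A X} (ht : t ∈ Alg H X) (z : C.A X) : t * H.cl z ∈ Alg H X := by
  induction ht using Submodule.span_induction with
  | mem t h =>
    obtain ⟨y, rfl⟩ := h
    simp only
    rw [← map_mul]
    exact alg_cl _
  | zero => rw [zero_mul]; exact Submodule.zero_mem _
  | add a b _ _ h1 h2 => rw [add_mul]; exact Submodule.add_mem _ h1 h2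
  | smul c a _ h1 => rw [smul_mul_assoc]; exact Submodule.smul_mem _ c h1

/-- contraction with a cycle on the second factor -/
noncomputable def con (X : 𝒱.Obj) {Y : 𝒱.Obj} (z : C.A Y) (x : H.A (X.prod Y)) : H.A X :=
  H.push (fst X Y) (x * H.cl (C.pull (snd X Y) z))

lemma con_alg (z : C.A Y) {x : H.A (X.prod Y)} (hx : x ∈ Alg H (X.prod Y)) :
    con X z x ∈ Alg H X := alg_down _ (alg_mul hx _)

lemma con_sum {ι : Type*} (s : Finset ι) (z : C.A Y) (c : ι → K) (x : ι → H.A (X.prod Y)) :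
    con X z (∑ i ∈ s, c i • x i) = ∑ i ∈ s, c i • con X z (x i) := by
  simp only [con, Finset.sum_mul, map_sum, smul_mul_assoc, map_smul]

lemma con_ext (t : H.A X) (w z : C.A Y) {q : ℚ} (hq : HasDegree C (w * z) q) :
    con X z (H.pull (fst X Y) t * H.cl (C.pull (snd X Y) w)) = t * H.cl (q • (1 : C.A X)) := by
  rw [con, mul_assoc, ← map_mul, ← map_mul]
  have h1 : H.push (fst X Y) (H.pull (fst X Y) t * H.cl (C.pull (snd X Y) (w * z))) =
      t * H.push (fst X Y) (H.cl (C.pull (snd X Y) (w * z))) :=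
    hH.isTheory.hasProjectionFormula.proj_left (fst X Y) (H.cl (C.pull (snd X Y) (w * z))) t
  rw [h1]
  have h2 : H.push (fst X Y) (H.cl (C.pull (snd X Y) (w * z))) =
      H.cl (C.push (fst X Y) (C.pull (snd X Y) (w * z))) :=
    (hH.isClassMap.cl_push (fst X Y) _).symm
  rw [h2, (hq X).2]

variable {T : Family H}

/-- The defect is multiplied at least by the number of independent cycles on the second factor. -/
lemma defect_prod {d A : ℕ} (hd : DefectGE T X d) (hA : NumRankGE C Y A) :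
    DefectGE T (X.prod Y) (d * A) := by
  obtain ⟨t, ht, hti⟩ := hd
  obtain ⟨w, w', hw⟩ := hA
  refine ⟨fun l => H.pull (fst X Y) (t (finProdFinEquiv.symm l).1) *
    H.cl (C.pull (snd X Y) (w (finProdFinEquiv.symm l).2)), fun l => ?_, fun c hc => ?_⟩
  · exact T.mul _ (T.pull _ (ht _))
  · have h1 : ∑ l, c l • (H.pull (fst X Y) (t (finProdFinEquiv.symm l).1) *
        H.cl (C.pull (snd X Y) (w (finProdFinEquiv.symm l).2))) =
        ∑ p : Fin d × Fin A, c (finProdFinEquiv p) • (H.pull (fst X Y) (t p.1) *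
          H.cl (C.pull (snd X Y) (w p.2))) := by
      rw [← Equiv.sum_comp finProdFinEquiv]
      simp
    rw [h1] at hc
    have h2 : ∀ j i, c (finProdFinEquiv (i, j)) = 0 := by
      intro j
      have h3 := con_alg (w' j) hc
      rw [con_sum] at h3
      have h4 : ∑ p : Fin d × Fin A, c (finProdFinEquiv p) •
          con X (w' j) (H.pull (fst X Y) (t p.1) * H.cl (C.pull (snd X Y) (w p.2))) =
          ∑ i : Fin d, c (finProdFinEquiv (i, j)) • t i := by
        rw [Fintype.sum_prod_type]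
        refine Finset.sum_congr rfl fun i _ => ?_
        rw [Finset.sum_eq_single j]
        · rw [con_ext _ _ _ (hw j j), if_pos rfl, one_smul, map_one, mul_one]
        · intro j' _ hj'
          rw [con_ext _ _ _ (hw j' j), if_neg hj', zero_smul, map_zero, mul_zero, smul_zero]
        · intro h
          exact absurd (Finset.mem_univ j) h
      rw [h4] at h3
      exact fun i => congrFun (hti _ h3) i
    funext l
    obtain ⟨⟨i, j⟩, rfl⟩ := finProdFinEquiv.surjective l
    exact h2 j i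

lemma defect_iso (f : X ⟶ Y) (g : Y ⟶ X) (h : f ≫ g = 𝟙 X) {d : ℕ} (hd : DefectGE T X d) :
    DefectGE T Y d := by
  obtain ⟨t, ht, hti⟩ := hd
  refine ⟨fun i => H.pull g (t i), fun i => T.pull g (ht i), fun c hc => hti c ?_⟩
  have h1 := alg_up f hc
  rw [map_sum] at h1
  have h2 : ∀ i, H.pull f (c i • H.pull g (t i)) = c i • t i := by
    intro i
    rw [map_smul]
    have h3 : H.pull (f ≫ g) (t i) = H.pull f (H.pull g (t i)) :=
      hH.isTheory.isFunctor.pull_comp f g (t i)
    have h4 : H.pull (𝟙 X) (t i) = t i := hH.isTheory.isFunctor.pull_id (t i)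
    rw [← h3, h, h4]
  rwa [Finset.sum_congr rfl fun i _ => h2 i] at h1

/-- Powers. -/
lemma pw_iso (X : 𝒱.Obj) (m n : ℕ) : ∃ (f : (pw X m).prod (pw X n) ⟶ pw X (m + n + 1))
    (g : pw X (m + n + 1) ⟶ (pw X m).prod (pw X n)), f ≫ g = 𝟙 _ := by
  induction n with
  | zero => exact ⟨𝟙 _, 𝟙 _, Category.comp_id _⟩
  | succ n ih =>
    obtain ⟨f, g, h⟩ := ih
    refine ⟨aJ _ _ _ ≫ prodMap f (𝟙 X), prodMap g (𝟙 X) ≫ aI _ _ _, ?_⟩
    have h1 : prodMap f (𝟙 X) ≫ prodMap g (𝟙 X) = 𝟙 (((pw X m).prod (pw X n)).prod X) := by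
      apply prod_ext
      · simp [prodMap, h]
      · simp [prodMap]
    calc (aJ _ _ _ ≫ prodMap f (𝟙 X)) ≫ prodMap g (𝟙 X) ≫ aI _ _ _ =
        aJ _ _ _ ≫ (prodMap f (𝟙 X) ≫ prodMap g (𝟙 X)) ≫ aI _ _ _ := by
          simp only [Category.assoc]
      _ = 𝟙 _ := by rw [h1, Category.id_comp, aJ_aI]

lemma numRank_one (X : 𝒱.Obj) : NumRankGE C X 1 := by
  obtain ⟨a, -, h1, h2⟩ := hC.exists_deg_one X
  refine ⟨fun _ => 1, fun _ => a, fun i j => ?_⟩
  rw [Subsingleton.elim i j, if_pos rfl, one_mul]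
  intro Y
  exact ⟨by rw [one_smul]; exact h2 Y, by rw [one_smul]; exact h1 Y⟩

lemma defect_step {r m d A : ℕ} (hd : DefectGE T (pw X r) d) (hA : NumRankGE C (pw X m) A) :
    DefectGE T (pw X (r + m + 1)) (d * A) := by
  obtain ⟨f, g, h⟩ := pw_iso X r m
  exact defect_iso f g h (defect_prod hd hA)

lemma defect_iter {r m A : ℕ} (hd : DefectGE T (pw X r) 1) (hA : NumRankGE C (pw X m) A)
    (q s : ℕ) : DefectGE T (pw X (r + q * (m + 1) + s)) (A ^ q) := by
  have h1 : DefectGE T (pw X (r + q * (m + 1))) (A ^ q) := by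
    induction q with
    | zero => simpa using hd
    | succ q ih =>
      have := defect_step ih hA
      rwa [show r + q * (m + 1) + m + 1 = r + (q + 1) * (m + 1) by ring, ← pow_succ] at this
  induction s with
  | zero => simpa using h1
  | succ s ih =>
    have := defect_step (m := 0) ih (numRank_one X)
    rwa [mul_one] at this

/-- the final estimate -/
lemma estimate {A M r : ℕ} {β D : ℝ} (hM : 0 < M) (hβ : 0 ≤ β) (hA : β ^ M < A)
    (h : ∃ᶠ n : ℕ in atTop, ∀ q s : ℕ, n = r + q * M + s → (A : ℝ) ^ q ≤ D * β ^ (n + 1)) :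
    False := by
  have hA0 : (0 : ℝ) < A := lt_of_le_of_lt (pow_nonneg hβ M) hA
  set ρ : ℝ := β ^ M / A with hρ
  have hρ0 : 0 ≤ ρ := div_nonneg (pow_nonneg hβ M) hA0.le
  have hρ1 : ρ < 1 := (div_lt_one hA0).2 hA
  set B : ℝ := max 1 β with hB
  have hB1 : 1 ≤ B := le_max_left _ _
  have hBβ : β ≤ B := le_max_right _ _
  set D' : ℝ := |D| * B ^ (r + M + 1) with hD'
  have ht : Tendsto (fun q : ℕ => D' * ρ ^ q) atTop (nhds 0) := by
    have := (tendsto_pow_atTop_nhds_zero_of_lt_one hρ0 hρ1).const_mul D'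
    rwa [mul_zero] at this
  have he : ∀ᶠ q : ℕ in atTop, D' * ρ ^ q < 1 := ht.eventually (gt_mem_nhds one_pos)
  obtain ⟨Q, hQ⟩ := eventually_atTop.1 he
  obtain ⟨n, hn, hn2⟩ := (h.and_eventually (eventually_ge_atTop (r + Q * M))).exists
  have h0 : n - r = M * ((n - r) / M) + (n - r) % M := (Nat.div_add_mod _ _).symm
  have hrn : r ≤ n := le_trans (Nat.le_add_right _ _) hn2
  set q := (n - r) / M with hq
  set s := (n - r) % M with hs
  have hsM : s < M := Nat.mod_lt _ hM
  have hnq : n = r + q * M + s := by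
    have h2 : M * q = q * M := mul_comm _ _
    omega
  have hQq : Q ≤ q := (Nat.le_div_iff_mul_le hM).2 (by omega)
  have h3 := hn q s hnq
  have h4 : D * β ^ (n + 1) ≤ D' * (β ^ M) ^ q := by
    have h5 : β ^ (n + 1) = β ^ (r + s + 1) * (β ^ M) ^ q := by
      rw [← pow_mul, ← pow_add, hnq]
      congr 1
      ring
    have h6 : β ^ (r + s + 1) ≤ B ^ (r + M + 1) :=
      le_trans (pow_le_pow_left₀ hβ hBβ _) (pow_le_pow_right₀ hB1 (by omega))
    have h7 : 0 ≤ (β ^ M) ^ q := pow_nonneg (pow_nonneg hβ M) q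
    calc D * β ^ (n + 1) ≤ |D| * β ^ (n + 1) :=
          mul_le_mul_of_nonneg_right (le_abs_self D) (pow_nonneg hβ _)
      _ = |D| * (β ^ (r + s + 1) * (β ^ M) ^ q) := by rw [h5]
      _ ≤ |D| * (B ^ (r + M + 1) * (β ^ M) ^ q) :=
          mul_le_mul_of_nonneg_left (mul_le_mul_of_nonneg_right h6 h7) (abs_nonneg D)
      _ = D' * (β ^ M) ^ q := by rw [hD']; ring
  have h8 : (β ^ M) ^ q = ρ ^ q * (A : ℝ) ^ q := by
    rw [← mul_pow, hρ, div_mul_cancel₀ _ hA0.ne']
  have h9 : (A : ℝ) ^ q ≤ (D' * ρ ^ q) * (A : ℝ) ^ q := by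
    calc (A : ℝ) ^ q ≤ D' * (β ^ M) ^ q := h3.trans h4
      _ = (D' * ρ ^ q) * (A : ℝ) ^ q := by rw [h8]; ring
  have h10 : (D' * ρ ^ q) * (A : ℝ) ^ q < 1 * (A : ℝ) ^ q :=
    mul_lt_mul_of_pos_right (hQ q hQq) (pow_pos hA0 q)
  rw [one_mul] at h10
  exact absurd h9 (not_le.2 h10)

lemma defect_one_of_not_holds (h : ¬ Holds T X) : DefectGE T X 1 := by
  obtain ⟨t, ht, hna⟩ := Set.not_subset.1 h
  refine ⟨fun _ => t, fun _ => ht, fun c hc => ?_⟩
  rw [Fin.sum_univ_one] at hc
  funext i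
  rw [Subsingleton.elim i 0]
  by_contra hne
  apply hna
  have h1 := Submodule.smul_mem _ (c 0)⁻¹ hc
  rwa [smul_smul, inv_mul_cancel₀ hne, one_smul] at h1

/-- If the conjecture fails for a power of `X`, the defects are large. -/
lemma defect_big {m n A : ℕ} (h : ¬ Holds T (pw X m)) (hA : NumRankGE C (pw X n) A) :
    DefectGE T (pw X (m + n + 1)) A := by
  have := defect_step (defect_one_of_not_holds h) hA
  rwa [one_mul] at this

/-- The main theorem. -/
theorem main (T : Family H) (X : 𝒱.Obj) : (∀ n, Holds T (pw X n)) ↔ SlowGrowth T X := by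
  constructor
  · intro h
    refine ⟨0, 1, 0, 0, numRank_one X, le_rfl, by simp, ?_⟩
    refine (Eventually.of_forall fun n => ?_).frequently
    rintro d ⟨t, ht, hti⟩
    rw [zero_mul]
    have h1 : d = 0 := by
      by_contra hd
      have h2 := hti (fun _ => 1) (Submodule.sum_mem _ fun i _ =>
        Submodule.smul_mem _ _ (h n (ht i)))
      exact one_ne_zero (congrFun h2 ⟨0, Nat.pos_of_ne_zero hd⟩)
    rw [h1, Nat.cast_zero]
  · rintro ⟨m, A, β, D, hA, hβ, hβA, hfr⟩ r
    by_contra hr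
    have h1 := defect_one_of_not_holds hr
    refine estimate (r := r) (D := D) (Nat.succ_pos m) hβ hβA (hfr.mono fun n hn q s hnq => ?_)
    have h2 := hn (A ^ q) (by rw [hnq]; exact defect_iter h1 hA q s)
    rwa [Nat.cast_pow] at h2

lemma defectIn_iso (f : X ⟶ Y) (g : Y ⟶ X) (h : f ≫ g = 𝟙 X) {r d : ℕ}
    (hd : DefectInGE T r X d) : DefectInGE T r Y d := by
  obtain ⟨t, ht, hti⟩ := hd
  refine ⟨fun i => H.pull g (t i), fun i => ⟨T.pull g (ht i).1,
    hH.isTheory.hasDegrees.pull_mem g (ht i).2⟩, fun c hc => hti c ?_⟩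
  have h1 := alg_up f hc
  rw [map_sum] at h1
  have h2 : ∀ i, H.pull f (c i • H.pull g (t i)) = c i • t i := by
    intro i
    rw [map_smul]
    have h3 : H.pull (f ≫ g) (t i) = H.pull f (H.pull g (t i)) :=
      hH.isTheory.isFunctor.pull_comp f g (t i)
    have h4 : H.pull (𝟙 X) (t i) = t i := hH.isTheory.isFunctor.pull_id (t i)
    rw [← h3, h, h4]
  rwa [Finset.sum_congr rfl fun i _ => h2 i] at h1

/-- the class of a point of degree one -/
lemma exists_pt (X : 𝒱.Obj) : ∃ a : C.A X, C.Deg X.dim a ∧ HasDegree C a 1 := by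
  obtain ⟨a, h0, h1, h2⟩ := hC.exists_deg_one X
  exact ⟨a, h0, fun Y => ⟨by rw [one_smul]; exact h2 Y, by rw [one_smul]; exact h1 Y⟩⟩

lemma push_fst_pt (t : H.A X) {a : C.A Y} (ha : HasDegree C a 1) :
    H.push (fst X Y) (H.pull (fst X Y) t * H.cl (C.pull (snd X Y) a)) = t := by
  have h1 : H.push (fst X Y) (H.pull (fst X Y) t * H.cl (C.pull (snd X Y) a)) =
      t * H.push (fst X Y) (H.cl (C.pull (snd X Y) a)) :=
    hH.isTheory.hasProjectionFormula.proj_left (fst X Y) (H.cl (C.pull (snd X Y) a)) t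
  have h2 : H.push (fst X Y) (H.cl (C.pull (snd X Y) a)) =
      H.cl (C.push (fst X Y) (C.pull (snd X Y) a)) :=
    (hH.isClassMap.cl_push (fst X Y) _).symm
  rw [h1, h2, (ha X).2, one_smul, map_one, mul_one]

lemma push_snd_pt (t : H.A Y) {a : C.A X} (ha : HasDegree C a 1) :
    H.push (snd X Y) (H.pull (snd X Y) t * H.cl (C.pull (fst X Y) a)) = t := by
  have h1 : H.push (snd X Y) (H.pull (snd X Y) t * H.cl (C.pull (fst X Y) a)) =
      t * H.push (snd X Y) (H.cl (C.pull (fst X Y) a)) :=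
    hH.isTheory.hasProjectionFormula.proj_left (snd X Y) (H.cl (C.pull (fst X Y) a)) t
  have h2 : H.push (snd X Y) (H.cl (C.pull (fst X Y) a)) =
      H.cl (C.push (snd X Y) (C.pull (fst X Y) a)) :=
    (hH.isClassMap.cl_push (snd X Y) _).symm
  rw [h1, h2, (ha Y).1, one_smul, map_one, mul_one]

lemma push_fst_zero {r : ℕ} (hr : 0 < r) {t : H.A Y} (ht : H.Deg (2 * r) t) {a : C.A Y}
    (ha : C.Deg Y.dim a) :
    H.push (fst X Y) (H.pull (snd X Y) t * H.cl (C.pull (snd X Y) a)) = 0 := by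
  have h1 : H.cl (C.pull (snd X Y) a) = H.pull (snd X Y) (H.cl a) :=
    hH.isClassMap.cl_pull (snd X Y) a
  have h2 : t * H.cl a = 0 := by
    have h3 : t * H.cl a ∈ H.gr Y (2 * r + 2 * Y.dim) :=
      hH.isTheory.isGradedRing.mul_mem ht (hH.isClassMap.cl_mem ha)
    have h4 : H.gr Y (2 * r + 2 * Y.dim) = ⊥ := gr_top (H := H) (by omega)
    rw [h4] at h3
    exact (Submodule.mem_bot _).1 h3
  rw [h1, ← map_mul, h2, map_zero, map_zero]

/-- The defects in a fixed codimension are superadditive. -/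
lemma defectIn_add {r d e : ℕ} (hr : 0 < r) (hd : DefectInGE T r X d) (he : DefectInGE T r Y e) :
    DefectInGE T r (X.prod Y) (d + e) := by
  obtain ⟨x, hx, hxi⟩ := hd
  obtain ⟨y, hy, hyi⟩ := he
  obtain ⟨a, ha0, ha⟩ := exists_pt (C := C) Y
  obtain ⟨b, hb0, hb⟩ := exists_pt (C := C) X
  refine ⟨Fin.append (fun i => H.pull (fst X Y) (x i)) fun j => H.pull (snd X Y) (y j),
    fun i => ?_, fun c hc => ?_⟩
  · refine Fin.addCases (fun i => ?_) (fun j => ?_) i
    · rw [Fin.append_left]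
      exact ⟨T.pull _ (hx i).1, hH.isTheory.hasDegrees.pull_mem _ (hx i).2⟩
    · rw [Fin.append_right]
      exact ⟨T.pull _ (hy j).1, hH.isTheory.hasDegrees.pull_mem _ (hy j).2⟩
  · rw [Fin.sum_univ_add] at hc
    simp only [Fin.append_left, Fin.append_right] at hc
    have h1 : (fun i => c (Fin.castAdd e i)) = 0 := by
      apply hxi
      have h2 := alg_down (fst X Y) (alg_mul hc (C.pull (snd X Y) a))
      rw [add_mul, Finset.sum_mul, Finset.sum_mul, map_add, map_sum, map_sum] at h2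
      simp only [smul_mul_assoc, map_smul, push_fst_pt _ ha] at h2
      have h3 : ∀ j, H.push (fst X Y) (H.pull (snd X Y) (y j) * H.cl (C.pull (snd X Y) a)) = 0 :=
        fun j => push_fst_zero hr (hy j).2 ha0
      simp only [h3, smul_zero, Finset.sum_const_zero, add_zero] at h2
      exact h2
    have h4 : (fun j => c (Fin.natAdd d j)) = 0 := by
      apply hyi
      have h5 : ∀ i, c (Fin.castAdd e i) = 0 := fun i => congrFun h1 i
      simp only [h5, zero_smul, Finset.sum_const_zero, zero_add] at hc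
      have h2 := alg_down (snd X Y) (alg_mul hc (C.pull (fst X Y) b))
      rw [Finset.sum_mul, map_sum] at h2
      simp only [smul_mul_assoc, map_smul, push_snd_pt _ hb] at h2
      exact h2
    funext i
    refine Fin.addCases (fun i => ?_) (fun j => ?_) i
    · exact congrFun h1 i
    · exact congrFun h4 j

lemma defectIn_zero (r : ℕ) (X : 𝒱.Obj) : DefectInGE T r X 0 :=
  ⟨fun _ => 0, fun i => i.elim0, fun _ _ => Subsingleton.elim _ _⟩

lemma defectIn_iter {r m : ℕ} (hr : 0 < r) (hd : DefectInGE T r (pw X m) 1) (q s : ℕ) :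
    DefectInGE T r (pw X (m + q * (m + 1) + s)) (q + 1) := by
  have h1 : DefectInGE T r (pw X (m + q * (m + 1))) (q + 1) := by
    induction q with
    | zero => simpa using hd
    | succ q ih =>
      obtain ⟨f, g, h⟩ := pw_iso X (m + q * (m + 1)) m
      have := defectIn_iso f g h (defectIn_add hr ih hd)
      rwa [show m + q * (m + 1) + m + 1 = m + (q + 1) * (m + 1) by ring] at this
  induction s with
  | zero => simpa using h1
  | succ s ih =>
    have := defectIn_add hr ih (defectIn_zero (T := T) r X)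
    exact this

lemma defectIn_one {r : ℕ} (h : ¬ HoldsIn T r X) : DefectInGE T r X 1 := by
  unfold HoldsIn at h
  push Not at h
  obtain ⟨t, ht, hdeg, hna⟩ := h
  refine ⟨fun _ => t, fun _ => ⟨ht, hdeg⟩, fun c hc => ?_⟩
  rw [Fin.sum_univ_one] at hc
  funext i
  rw [Subsingleton.elim i 0]
  by_contra hne
  apply hna
  have h1 := Submodule.smul_mem _ (c 0)⁻¹ hc
  rwa [smul_smul, inv_mul_cancel₀ hne, one_smul] at h1

/-- The theorem in a fixed codimension. -/
theorem main_in (T : Family H) (X : 𝒱.Obj) {r : ℕ} (hr : 0 < r) :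
    (∀ n, HoldsIn T r (pw X n)) ↔ SublinearIn T r X := by
  constructor
  · intro h ε hε
    refine (Eventually.of_forall fun n => ?_).frequently
    rintro d ⟨t, ht, hti⟩
    have h1 : d = 0 := by
      by_contra hd
      have h2 := hti (fun _ => 1) (Submodule.sum_mem _ fun i _ =>
        Submodule.smul_mem _ _ (h n _ (ht i).1 (ht i).2))
      exact one_ne_zero (congrFun h2 ⟨0, Nat.pos_of_ne_zero hd⟩)
    rw [h1, Nat.cast_zero]
    positivity
  · intro h m
    by_contra hm
    have h1 := defectIn_one hm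
    have hM : (0 : ℝ) < m + 1 := by positivity
    obtain ⟨n, hn, hn2⟩ := ((h (1 / (2 * (m + 1))) (by positivity)).and_eventually
      (eventually_ge_atTop (2 * (m + 1)))).exists
    set q := (n - m) / (m + 1) with hq
    set s := (n - m) % (m + 1) with hs
    have h0 : (m + 1) * q + s = n - m := Nat.div_add_mod _ _
    have hsM : s < m + 1 := Nat.mod_lt _ (Nat.succ_pos m)
    have hnq : n = m + q * (m + 1) + s := by
      have h2 : (m + 1) * q = q * (m + 1) := mul_comm _ _
      omega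
    have h3 := hn (q + 1) (by rw [hnq]; exact defectIn_iter hr h1 q s)
    have h4 : (n : ℝ) = m + q * (m + 1) + s := by exact_mod_cast hnq
    have h5 : (s : ℝ) < m + 1 := by exact_mod_cast hsM
    have h6 : (2 * (m + 1) : ℝ) ≤ n := by exact_mod_cast hn2
    rw [div_mul_eq_mul_div, one_mul, le_div_iff₀ (by positivity)] at h3
    push_cast at h3
    nlinarith

end Pool.Agent.V1151.DG
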