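import Pool.Agent.TH133.Defs

/-!
# Growth of the defects of the Hodge conjecture for the powers of a variety: definitions
-/

open CategoryTheory AlgebraicGeometry

universe u v w

namespace Pool.Agent.V1151.DG

open Pool.Agent.H914 Pool.Agent.H914.VarClass Pool.Agent.H914.VarClass.Obj Pool.Agent.W492.BB
  Pool.Agent.TH133

variable {k : Type u} [Field k] {𝒱 : VarClass k}

/-- The power `X ^ (n + 1)`. -/
noncomputable def pw (X : 𝒱.Obj) : ℕ → 𝒱.Obj
  | 0 => X
  | n + 1 => (pw X n).prod X

/-- There are `A` algebraic cycles on `Y` which are linearly independent modulo numerical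
equivalence: `w 0, …, w (A - 1)` and cycles `w' 0, …, w' (A - 1)` with intersection numbers
`(w i, w' j) = δ_{ij}`. -/
def NumRankGE (C : TheoryData.{u, v, 0} 𝒱 ℚ) (Y : 𝒱.Obj) (A : ℕ) : Prop :=
  ∃ w w' : Fin A → C.A Y, ∀ i j, HasDegree C (w i * w' j) (if i = j then 1 else 0)

variable {C : TheoryData.{u, v, 0} 𝒱 ℚ} {K : Type w} [Field K] (H : WeilTheoryData.{u, v, w} C K)

/-- The algebraic classes on `X`: the linear combinations, with coefficients in `K`, of classes of
cycles (of all codimensions). -/
def Alg (X : 𝒱.Obj) : Submodule K (H.A X) := Submodule.span K (Set.range fun z : C.A X => H.cl z)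

/-- Distinguished classes (for the Hodge conjecture, `K = ℚ`: the sums of Hodge classes of all
degrees): subspaces `cls X` of the cohomology of all `X`, stable under pull-backs and under
products with the classes of cycles, and containing these classes. -/
structure Family where
  /-- the distinguished classes -/
  cls : ∀ X : 𝒱.Obj, Submodule K (H.A X)
  alg : ∀ {X : 𝒱.Obj} (z : C.A X), H.cl z ∈ cls X
  pull : ∀ {X Y : 𝒱.Obj} (f : X ⟶ Y) {t : H.A Y}, t ∈ cls Y → H.up f t ∈ cls X
  mul : ∀ {X : 𝒱.Obj} {t : H.A X} (z : C.A X), t ∈ cls X → H.mul t (H.cl z) ∈ cls X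

variable {H} (T : Family H)

/-- The distinguished classes on `X` are algebraic. -/
def Holds (X : 𝒱.Obj) : Prop := T.cls X ≤ Alg H X

/-- There are `d` distinguished classes on `X` which are linearly independent modulo algebraic
classes. -/
def DefectGE (X : 𝒱.Obj) (d : ℕ) : Prop :=
  ∃ t : Fin d → H.A X, (∀ i, t i ∈ T.cls X) ∧
    ∀ c : Fin d → K, ∑ i, c i • t i ∈ Alg H X → c = 0

/-- The distinguished classes of codimension `r` on `X` are algebraic. -/
def HoldsIn (r : ℕ) (X : 𝒱.Obj) : Prop := ∀ t ∈ T.cls X, H.Deg (2 * r) t → t ∈ Alg H X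

/-- There are `d` distinguished classes of codimension `r` on `X` which are linearly independent
modulo algebraic classes. -/
def DefectInGE (r : ℕ) (X : 𝒱.Obj) (d : ℕ) : Prop :=
  ∃ t : Fin d → H.A X, (∀ i, t i ∈ T.cls X ∧ H.Deg (2 * r) (t i)) ∧
    ∀ c : Fin d → K, ∑ i, c i • t i ∈ Alg H X → c = 0

/-- For some `m` and `A` there are `A` independent cycles on `X ^ (m + 1)`, and for infinitely many
`n` the number of distinguished classes on `X ^ (n + 1)` which are independent modulo algebraic
classes is at most `D β ^ (n + 1)`, with a constant `D` and `β` less than the root of `A` of order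
`m + 1`. -/
def SlowGrowth (X : 𝒱.Obj) : Prop :=
  ∃ (m A : ℕ) (β D : ℝ), NumRankGE C (pw X m) A ∧ 0 ≤ β ∧ β ^ (m + 1) < A ∧
    ∃ᶠ n : ℕ in Filter.atTop, ∀ d : ℕ, DefectGE T (pw X n) d → (d : ℝ) ≤ D * β ^ (n + 1)

/-- For every `ε > 0` and infinitely many `n` the number of distinguished classes of codimension
`r` on `X ^ (n + 1)` which are independent modulo algebraic classes is at most `ε (n + 1)`. -/
def SublinearIn (r : ℕ) (X : 𝒱.Obj) : Prop :=
  ∀ ε : ℝ, 0 < ε → ∃ᶠ n : ℕ in Filter.atTop, ∀ d : ℕ, DefectInGE T r (pw X n) d →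
    (d : ℝ) ≤ ε * (n + 1)

end Pool.Agent.V1151.DG
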